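import Pool.Agent.Helper70.MM.Goals2

/-!
Packet MM-EDGE1 (project MM of helper70, MP_91ee6f_gt): `DERIV → EDGE1`.
-/

open Set

namespace Pool.Agent.Helper85.MM

open Pool.Agent.Helper70.MM

lemma hasDerivAt_g {ℓ : ℝ} (hℓ : 0 < ℓ) (t : ℝ) :
    HasDerivAt (fun t : ℝ => Real.exp (-Real.sqrt (ℓ ^ 2 + t ^ 2)))
      (-(t * (Real.exp (-Real.sqrt (ℓ ^ 2 + t ^ 2)) / Real.sqrt (ℓ ^ 2 + t ^ 2)))) t := by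
  have hpos : 0 < ℓ ^ 2 + t ^ 2 := by positivity
  have h1 : HasDerivAt (fun t : ℝ => ℓ ^ 2 + t ^ 2) (2 * t) t := by
    simpa using ((hasDerivAt_id t).pow 2).const_add (ℓ ^ 2)
  have h2 := (h1.sqrt hpos.ne').neg.exp
  refine h2.congr_deriv ?_
  have hs : Real.sqrt (ℓ ^ 2 + t ^ 2) ≠ 0 := (Real.sqrt_pos.2 hpos).ne'
  simp only [Pi.neg_apply]
  field_simp

lemma sqrt_scale {ℓ t : ℝ} (hℓ : 0 < ℓ) :
    Real.sqrt (ℓ ^ 2 + t ^ 2) = ℓ * Real.sqrt (1 + (t / ℓ) ^ 2) := by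
  have h : ℓ ^ 2 + t ^ 2 = ℓ ^ 2 * (1 + (t / ℓ) ^ 2) := by
    field_simp
  rw [h, Real.sqrt_mul (by positivity), Real.sqrt_sq hℓ.le]

/-- The difference of the two sides. -/
noncomputable def Fd (ℓ s : ℝ) : ℝ :=
  Real.exp (-Real.sqrt (ℓ ^ 2 + s ^ 2)) + Real.exp (-Real.sqrt (ℓ ^ 2 + (ℓ - s) ^ 2)) -
    Real.exp (-ℓ) - Real.exp (-(Real.sqrt 2 * ℓ)) -
    s * (ℓ - s) * (Real.exp (-(Real.sqrt 2 * ℓ)) / (Real.sqrt 2 * ℓ))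

lemma hasDerivAt_Fd {ℓ : ℝ} (hℓ : 0 < ℓ) (s : ℝ) :
    HasDerivAt (Fd ℓ)
      (-(s * (Real.exp (-Real.sqrt (ℓ ^ 2 + s ^ 2)) / Real.sqrt (ℓ ^ 2 + s ^ 2))) +
        (ℓ - s) * (Real.exp (-Real.sqrt (ℓ ^ 2 + (ℓ - s) ^ 2)) /
          Real.sqrt (ℓ ^ 2 + (ℓ - s) ^ 2)) -
        (ℓ - 2 * s) * (Real.exp (-(Real.sqrt 2 * ℓ)) / (Real.sqrt 2 * ℓ))) s := by
  have h1 := hasDerivAt_g hℓ s
  have h0 : HasDerivAt (fun s : ℝ => ℓ - s) (-1) s := by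
    simpa using (hasDerivAt_id s).const_sub ℓ
  have h2 := (hasDerivAt_g hℓ (ℓ - s)).comp s h0
  have h3 : HasDerivAt (fun s : ℝ => s * (ℓ - s)) (ℓ - 2 * s) s := by
    refine ((hasDerivAt_id s).mul h0).congr_deriv ?_
    simp only [id]
    ring
  have h4 := h3.mul_const (Real.exp (-(Real.sqrt 2 * ℓ)) / (Real.sqrt 2 * ℓ))
  have h5 := (((h1.add h2).sub_const (Real.exp (-ℓ))).sub_const
    (Real.exp (-(Real.sqrt 2 * ℓ)))).sub h4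
  refine h5.congr_deriv ?_
  ring

lemma Fd_zero {ℓ : ℝ} (hℓ : 0 < ℓ) : Fd ℓ 0 = 0 := by
  have h1 : Real.sqrt (ℓ ^ 2 + (0 : ℝ) ^ 2) = ℓ := by
    rw [show ℓ ^ 2 + (0 : ℝ) ^ 2 = ℓ ^ 2 by ring, Real.sqrt_sq hℓ.le]
  have h2 : Real.sqrt (ℓ ^ 2 + (ℓ - 0) ^ 2) = Real.sqrt 2 * ℓ := by
    rw [show ℓ ^ 2 + (ℓ - 0) ^ 2 = 2 * ℓ ^ 2 by ring, Real.sqrt_mul (by norm_num),
      Real.sqrt_sq hℓ.le]
  unfold Fd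
  rw [h1, h2]
  ring

lemma Fd_symm (ℓ s : ℝ) : Fd ℓ (ℓ - s) = Fd ℓ s := by
  unfold Fd
  rw [show ℓ - (ℓ - s) = s by ring]
  ring

lemma deriv_Fd_nonneg (hD : DERIV) {ℓ : ℝ} (hℓ : 0 < ℓ) (hℓ2 : ℓ ≤ 1 / 2) {s : ℝ} (hs : 0 ≤ s)
    (hs2 : s ≤ ℓ / 2) :
    0 ≤ -(s * (Real.exp (-Real.sqrt (ℓ ^ 2 + s ^ 2)) / Real.sqrt (ℓ ^ 2 + s ^ 2))) +
        (ℓ - s) * (Real.exp (-Real.sqrt (ℓ ^ 2 + (ℓ - s) ^ 2)) /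
          Real.sqrt (ℓ ^ 2 + (ℓ - s) ^ 2)) -
        (ℓ - 2 * s) * (Real.exp (-(Real.sqrt 2 * ℓ)) / (Real.sqrt 2 * ℓ)) := by
  have h := hD ℓ ((ℓ - s) / ℓ) (s / ℓ) hℓ hℓ2 (by positivity)
    (by rw [div_le_div_iff_of_pos_right hℓ]; linarith) (by field_simp; ring)
  rw [sqrt_scale (t := s) hℓ, sqrt_scale (t := ℓ - s) hℓ]
  have e1 : s * (Real.exp (-(ℓ * Real.sqrt (1 + (s / ℓ) ^ 2))) /
      (ℓ * Real.sqrt (1 + (s / ℓ) ^ 2))) =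
      s / ℓ * (Real.exp (-(ℓ * Real.sqrt (1 + (s / ℓ) ^ 2))) /
        Real.sqrt (1 + (s / ℓ) ^ 2)) := by
    have : Real.sqrt (1 + (s / ℓ) ^ 2) ≠ 0 := (Real.sqrt_pos.2 (by positivity)).ne'
    field_simp
  have e2 : (ℓ - s) * (Real.exp (-(ℓ * Real.sqrt (1 + ((ℓ - s) / ℓ) ^ 2))) /
      (ℓ * Real.sqrt (1 + ((ℓ - s) / ℓ) ^ 2))) =
      (ℓ - s) / ℓ * (Real.exp (-(ℓ * Real.sqrt (1 + ((ℓ - s) / ℓ) ^ 2))) /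
        Real.sqrt (1 + ((ℓ - s) / ℓ) ^ 2)) := by
    have : Real.sqrt (1 + ((ℓ - s) / ℓ) ^ 2) ≠ 0 := (Real.sqrt_pos.2 (by positivity)).ne'
    field_simp
  have e3 : (ℓ - 2 * s) * (Real.exp (-(Real.sqrt 2 * ℓ)) / (Real.sqrt 2 * ℓ)) =
      ((ℓ - s) / ℓ - s / ℓ) * (Real.exp (-(ℓ * Real.sqrt 2)) / Real.sqrt 2) := by
    have : Real.sqrt 2 ≠ 0 := (Real.sqrt_pos.2 (by norm_num)).ne'
    rw [mul_comm (Real.sqrt 2) ℓ]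
    field_simp
    ring
  rw [e1, e2, e3]
  linarith

lemma Fd_nonneg_half (hD : DERIV) {ℓ : ℝ} (hℓ : 0 < ℓ) (hℓ2 : ℓ ≤ 1 / 2) {s : ℝ} (hs : 0 ≤ s)
    (hs2 : s ≤ ℓ / 2) : 0 ≤ Fd ℓ s := by
  have hmono : MonotoneOn (Fd ℓ) (Icc 0 (ℓ / 2)) := by
    refine monotoneOn_of_deriv_nonneg (convex_Icc _ _)
      (fun x _ => (hasDerivAt_Fd hℓ x).continuousAt.continuousWithinAt)
      (fun x _ => (hasDerivAt_Fd hℓ x).differentiableAt.differentiableWithinAt) ?_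
    intro x hx
    rw [interior_Icc] at hx
    rw [(hasDerivAt_Fd hℓ x).deriv]
    exact deriv_Fd_nonneg hD hℓ hℓ2 hx.1.le hx.2.le
  have := hmono (left_mem_Icc.2 (by positivity)) ⟨hs, hs2⟩ hs
  rwa [Fd_zero hℓ] at this

theorem edge1 : DERIV → EDGE1 := by
  intro hD ℓ s hℓ hℓ2 hs hs2
  have key : 0 ≤ Fd ℓ s := by
    rcases le_total s (ℓ / 2) with h | h
    · exact Fd_nonneg_half hD hℓ hℓ2 hs h
    · rw [← Fd_symm]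
      exact Fd_nonneg_half hD hℓ hℓ2 (by linarith) (by linarith)
  unfold Fd at key
  linarith

end Pool.Agent.Helper85.MM
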